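import Mathlib

/-!
# Isomorphism types of finitely generated projective algebras of plane sets

For every positive integer `k` there are exactly continuum many isomorphism classes of projective
algebras generated by `k` subsets of the plane.
-/

namespace Pool.Agent.Results.MP_71be7b_lc.ContinuumManyClasses

open Set Cardinal

/-- The horizontal axis `X = ℝ × {0}`. -/
def axisX : Set (ℝ × ℝ) := {p | p.2 = 0}

/-- The vertical axis `Y = {0} × ℝ`. -/
def axisY : Set (ℝ × ℝ) := {p | p.1 = 0}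

/-- `π₁ S = {(x, 0) : ∃ y, (x, y) ∈ S}`. -/
def proj1 (S : Set (ℝ × ℝ)) : Set (ℝ × ℝ) := {p | p.2 = 0 ∧ ∃ y, (p.1, y) ∈ S}

/-- `π₂ S = {(0, y) : ∃ x, (x, y) ∈ S}`. -/
def proj2 (S : Set (ℝ × ℝ)) : Set (ℝ × ℝ) := {p | p.1 = 0 ∧ ∃ x, (x, p.2) ∈ S}

/-- `A ⊗ B = {(x, y) : (x, 0) ∈ A, (0, y) ∈ B}`. -/
def oprod (A B : Set (ℝ × ℝ)) : Set (ℝ × ℝ) := {p | (p.1, 0) ∈ A ∧ (0, p.2) ∈ B}

/-- A projective algebra of plane sets: a family of subsets of the plane closed under complement,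
(finite) unions, both projections, and products `A ⊗ B` with `A ⊆ X`, `B ⊆ Y`. -/
structure IsProjAlg (F : Set (Set (ℝ × ℝ))) : Prop where
  compl_mem : ∀ S ∈ F, Sᶜ ∈ F
  union_mem : ∀ S ∈ F, ∀ T ∈ F, S ∪ T ∈ F
  proj1_mem : ∀ S ∈ F, proj1 S ∈ F
  proj2_mem : ∀ S ∈ F, proj2 S ∈ F
  oprod_mem : ∀ A ∈ F, ∀ B ∈ F, A ⊆ axisX → B ⊆ axisY → oprod A B ∈ F

/-- The projective algebra generated by `S 0, …, S (k-1)`: the smallest projective algebra
containing all of them (the intersection of all such algebras). -/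
def generated {k : ℕ} (S : Fin k → Set (ℝ × ℝ)) : Set (Set (ℝ × ℝ)) :=
  {A | ∀ F : Set (Set (ℝ × ℝ)), IsProjAlg F → (∀ i, S i ∈ F) → A ∈ F}

/-- `φ` is an isomorphism from `F` onto `G`: a bijection commuting with complement, union, the two
projections and `⊗`. -/
structure IsIso (F G : Set (Set (ℝ × ℝ))) (φ : Set (ℝ × ℝ) → Set (ℝ × ℝ)) : Prop where
  bij : Set.BijOn φ F G
  compl : ∀ S ∈ F, φ Sᶜ = (φ S)ᶜ
  union : ∀ S ∈ F, ∀ T ∈ F, φ (S ∪ T) = φ S ∪ φ T
  proj1 : ∀ S ∈ F, φ (proj1 S) = ContinuumManyClasses.proj1 (φ S)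
  proj2 : ∀ S ∈ F, φ (proj2 S) = ContinuumManyClasses.proj2 (φ S)
  oprod : ∀ A ∈ F, ∀ B ∈ F, A ⊆ axisX → B ⊆ axisY → φ (oprod A B) = ContinuumManyClasses.oprod (φ A) (φ B)

/-- Two families are isomorphic if there is an isomorphism from one onto the other. -/
def Isomorphic (F G : Set (Set (ℝ × ℝ))) : Prop := ∃ φ, IsIso F G φ

/-- The type of all projective algebras generated by `k` subsets of the plane. -/
def GenAlg (k : ℕ) : Type :=
  {F : Set (Set (ℝ × ℝ)) // ∃ S : Fin k → Set (ℝ × ℝ), F = generated S}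

lemma generated_isProjAlg {k : ℕ} (S : Fin k → Set (ℝ × ℝ)) : IsProjAlg (generated S) where
  compl_mem A hA F hF hS := hF.compl_mem A (hA F hF hS)
  union_mem A hA B hB F hF hS := hF.union_mem A (hA F hF hS) B (hB F hF hS)
  proj1_mem A hA F hF hS := hF.proj1_mem A (hA F hF hS)
  proj2_mem A hA F hF hS := hF.proj2_mem A (hA F hF hS)
  oprod_mem A hA B hB h1 h2 F hF hS := hF.oprod_mem A (hA F hF hS) B (hB F hF hS) h1 h2

lemma mem_generated {k : ℕ} (S : Fin k → Set (ℝ × ℝ)) (i : Fin k) : S i ∈ generated S :=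
  fun _ _ hS => hS i

/-! ### Consequences of closure -/

section closure
variable {F : Set (Set (ℝ × ℝ))} (hF : IsProjAlg F)
include hF

lemma inter_mem {S T : Set (ℝ × ℝ)} (hS : S ∈ F) (hT : T ∈ F) : S ∩ T ∈ F := by
  have := hF.compl_mem _ (hF.union_mem _ (hF.compl_mem _ hS) _ (hF.compl_mem _ hT))
  rwa [← Set.compl_inter, compl_compl] at this

lemma diff_mem {S T : Set (ℝ × ℝ)} (hS : S ∈ F) (hT : T ∈ F) : S \ T ∈ F := by
  rw [Set.sdiff_eq]; exact inter_mem hF hS (hF.compl_mem _ hT)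

lemma univ_mem {S : Set (ℝ × ℝ)} (hS : S ∈ F) : (Set.univ : Set (ℝ × ℝ)) ∈ F := by
  have := hF.union_mem _ hS _ (hF.compl_mem _ hS)
  rwa [Set.union_compl_self] at this

lemma empty_mem {S : Set (ℝ × ℝ)} (hS : S ∈ F) : (∅ : Set (ℝ × ℝ)) ∈ F := by
  have := hF.compl_mem _ (univ_mem hF hS)
  rwa [Set.compl_univ] at this

end closure

lemma proj1_univ : proj1 Set.univ = axisX := by
  ext p; simp [proj1, axisX]

lemma proj2_univ : proj2 Set.univ = axisY := by
  ext p; simp [proj2, axisY]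

lemma axisX_mem {F : Set (Set (ℝ × ℝ))} (hF : IsProjAlg F) {S : Set (ℝ × ℝ)} (hS : S ∈ F) :
    axisX ∈ F := by
  rw [← proj1_univ]; exact hF.proj1_mem _ (univ_mem hF hS)

lemma axisY_mem {F : Set (Set (ℝ × ℝ))} (hF : IsProjAlg F) {S : Set (ℝ × ℝ)} (hS : S ∈ F) :
    axisY ∈ F := by
  rw [← proj2_univ]; exact hF.proj2_mem _ (univ_mem hF hS)

/-! ### Isomorphisms commute with the derived operations -/

section iso
variable {F G : Set (Set (ℝ × ℝ))} {φ : Set (ℝ × ℝ) → Set (ℝ × ℝ)}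
  (hF : IsProjAlg F) (h : IsIso F G φ)
include hF h

lemma iso_inter {S T : Set (ℝ × ℝ)} (hS : S ∈ F) (hT : T ∈ F) : φ (S ∩ T) = φ S ∩ φ T := by
  have h1 : S ∩ T = (Sᶜ ∪ Tᶜ)ᶜ := by rw [← Set.compl_inter, compl_compl]
  rw [h1, h.compl _ (hF.union_mem _ (hF.compl_mem _ hS) _ (hF.compl_mem _ hT)),
    h.union _ (hF.compl_mem _ hS) _ (hF.compl_mem _ hT), h.compl _ hS, h.compl _ hT,
    ← Set.compl_inter, compl_compl]

lemma iso_diff {S T : Set (ℝ × ℝ)} (hS : S ∈ F) (hT : T ∈ F) : φ (S \ T) = φ S \ φ T := by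
  rw [Set.sdiff_eq, iso_inter hF h hS (hF.compl_mem _ hT), h.compl _ hT, Set.sdiff_eq]

lemma iso_univ {S : Set (ℝ × ℝ)} (hS : S ∈ F) : φ Set.univ = Set.univ := by
  rw [← Set.union_compl_self S, h.union _ hS _ (hF.compl_mem _ hS), h.compl _ hS,
    Set.union_compl_self, Set.union_compl_self]

lemma iso_empty {S : Set (ℝ × ℝ)} (hS : S ∈ F) : φ ∅ = ∅ := by
  rw [← Set.compl_univ, h.compl _ (univ_mem hF hS), iso_univ hF h hS]

lemma iso_axisX {S : Set (ℝ × ℝ)} (hS : S ∈ F) : φ axisX = axisX := by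
  rw [← proj1_univ, h.proj1 _ (univ_mem hF hS), iso_univ hF h hS]

lemma iso_axisY {S : Set (ℝ × ℝ)} (hS : S ∈ F) : φ axisY = axisY := by
  rw [← proj2_univ, h.proj2 _ (univ_mem hF hS), iso_univ hF h hS]

lemma iso_subset_axisX {A : Set (ℝ × ℝ)} (hA : A ∈ F) : φ A ⊆ axisX ↔ A ⊆ axisX := by
  constructor
  · intro hsub
    have h1 : φ (A ∪ axisX) = φ axisX := by
      rw [h.union _ hA _ (axisX_mem hF hA), iso_axisX hF h hA, Set.union_eq_right.2 hsub]
    have h2 := h.bij.injOn (hF.union_mem _ hA _ (axisX_mem hF hA)) (axisX_mem hF hA) h1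
    exact Set.union_eq_right.1 h2
  · intro hsub
    have h1 : φ A ∪ φ axisX = φ axisX := by
      rw [← h.union _ hA _ (axisX_mem hF hA), Set.union_eq_right.2 hsub]
    rw [iso_axisX hF h hA] at h1
    exact Set.union_eq_right.1 h1

lemma iso_subset_axisY {A : Set (ℝ × ℝ)} (hA : A ∈ F) : φ A ⊆ axisY ↔ A ⊆ axisY := by
  constructor
  · intro hsub
    have h1 : φ (A ∪ axisY) = φ axisY := by
      rw [h.union _ hA _ (axisY_mem hF hA), iso_axisY hF h hA, Set.union_eq_right.2 hsub]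
    have h2 := h.bij.injOn (hF.union_mem _ hA _ (axisY_mem hF hA)) (axisY_mem hF hA) h1
    exact Set.union_eq_right.1 h2
  · intro hsub
    have h1 : φ A ∪ φ axisY = φ axisY := by
      rw [← h.union _ hA _ (axisY_mem hF hA), Set.union_eq_right.2 hsub]
    rw [iso_axisY hF h hA] at h1
    exact Set.union_eq_right.1 h1

end iso

/-! ### Isomorphism is an equivalence relation on generated algebras -/

lemma isomorphic_refl (F : Set (Set (ℝ × ℝ))) : Isomorphic F F :=
  ⟨id, Set.bijOn_id F, fun _ _ => rfl, fun _ _ _ _ => rfl, fun _ _ => rfl, fun _ _ => rfl,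
    fun _ _ _ _ _ _ => rfl⟩

lemma isomorphic_symm {F G : Set (Set (ℝ × ℝ))} (hF : IsProjAlg F) :
    Isomorphic F G → Isomorphic G F := by
  rintro ⟨φ, h⟩
  classical
  let ψ : Set (ℝ × ℝ) → Set (ℝ × ℝ) := Function.invFunOn φ F
  have hinv : Set.InvOn ψ φ F G := h.bij.invOn_invFunOn
  have hψ : Set.BijOn ψ G F := (Set.bijOn_comm hinv).2 h.bij
  have key : ∀ A ∈ G, ∀ B ∈ F, φ B = A → ψ A = B := by
    intro A _ B hB hBA
    rw [← hBA]; exact hinv.1 hB
  have hm : ∀ A ∈ G, ψ A ∈ F := fun A hA => hψ.mapsTo hA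
  have hr : ∀ A ∈ G, φ (ψ A) = A := fun A hA => hinv.2 hA
  -- closure of `G`
  refine ⟨ψ, hψ, ?_, ?_, ?_, ?_, ?_⟩
  · intro S hS
    have e : φ (ψ S)ᶜ = Sᶜ := by rw [h.compl _ (hm S hS), hr S hS]
    refine key _ ?_ _ (hF.compl_mem _ (hm S hS)) e
    rw [← e]; exact h.bij.mapsTo (hF.compl_mem _ (hm S hS))
  · intro S hS T hT
    have e : φ (ψ S ∪ ψ T) = S ∪ T := by
      rw [h.union _ (hm S hS) _ (hm T hT), hr S hS, hr T hT]
    refine key _ ?_ _ (hF.union_mem _ (hm S hS) _ (hm T hT)) e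
    rw [← e]; exact h.bij.mapsTo (hF.union_mem _ (hm S hS) _ (hm T hT))
  · intro S hS
    have e : φ (proj1 (ψ S)) = proj1 S := by rw [h.proj1 _ (hm S hS), hr S hS]
    refine key _ ?_ _ (hF.proj1_mem _ (hm S hS)) e
    rw [← e]; exact h.bij.mapsTo (hF.proj1_mem _ (hm S hS))
  · intro S hS
    have e : φ (proj2 (ψ S)) = proj2 S := by rw [h.proj2 _ (hm S hS), hr S hS]
    refine key _ ?_ _ (hF.proj2_mem _ (hm S hS)) e
    rw [← e]; exact h.bij.mapsTo (hF.proj2_mem _ (hm S hS))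
  · intro A hA B hB h1 h2
    have h1' : ψ A ⊆ axisX := by
      rw [← iso_subset_axisX hF h (hm A hA), hr A hA]; exact h1
    have h2' : ψ B ⊆ axisY := by
      rw [← iso_subset_axisY hF h (hm B hB), hr B hB]; exact h2
    have e : φ (oprod (ψ A) (ψ B)) = oprod A B := by
      rw [h.oprod _ (hm A hA) _ (hm B hB) h1' h2', hr A hA, hr B hB]
    refine key _ ?_ _ (hF.oprod_mem _ (hm A hA) _ (hm B hB) h1' h2') e
    rw [← e]; exact h.bij.mapsTo (hF.oprod_mem _ (hm A hA) _ (hm B hB) h1' h2')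

lemma isomorphic_trans {F G H : Set (Set (ℝ × ℝ))} (hF : IsProjAlg F) :
    Isomorphic F G → Isomorphic G H → Isomorphic F H := by
  rintro ⟨φ, h⟩ ⟨ψ, h'⟩
  have hm : ∀ A ∈ F, φ A ∈ G := fun A hA => h.bij.mapsTo hA
  refine ⟨ψ ∘ φ, h'.bij.comp h.bij, ?_, ?_, ?_, ?_, ?_⟩
  · intro S hS; simp only [Function.comp]; rw [h.compl _ hS, h'.compl _ (hm S hS)]
  · intro S hS T hT; simp only [Function.comp]
    rw [h.union _ hS _ hT, h'.union _ (hm S hS) _ (hm T hT)]
  · intro S hS; simp only [Function.comp]; rw [h.proj1 _ hS, h'.proj1 _ (hm S hS)]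
  · intro S hS; simp only [Function.comp]; rw [h.proj2 _ hS, h'.proj2 _ (hm S hS)]
  · intro A hA B hB h1 h2; simp only [Function.comp]
    rw [h.oprod _ hA _ hB h1 h2, h'.oprod _ (hm A hA) _ (hm B hB)
      ((iso_subset_axisX hF h hA).2 h1) ((iso_subset_axisY hF h hB).2 h2)]

/-- Isomorphism, as an equivalence relation on the projective algebras generated by `k` sets. -/
def isoSetoid (k : ℕ) : Setoid (GenAlg k) where
  r F G := Isomorphic F.1 G.1
  iseqv :=
    { refl := fun F => isomorphic_refl F.1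
      symm := fun {F _} h => isomorphic_symm (by
        obtain ⟨S, hS⟩ := F.2
        rw [hS]; exact generated_isProjAlg S) h
      trans := fun {F _ _} h h' => isomorphic_trans (by
        obtain ⟨S, hS⟩ := F.2
        rw [hS]; exact generated_isProjAlg S) h h' }

/-! ### Terms -/

/-- Terms in the operations with `k` variables. -/
inductive Term (k : ℕ) : Type
  | var (i : Fin k) : Term k
  | neg (t : Term k) : Term k
  | sup (s t : Term k) : Term k
  | p1 (t : Term k) : Term k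
  | p2 (t : Term k) : Term k
  | tens (s t : Term k) : Term k
  deriving Countable

/-- Evaluation of terms. -/
def eval {k : ℕ} (S : Fin k → Set (ℝ × ℝ)) : Term k → Set (ℝ × ℝ)
  | .var i => S i
  | .neg t => (eval S t)ᶜ
  | .sup s t => eval S s ∪ eval S t
  | .p1 t => proj1 (eval S t)
  | .p2 t => proj2 (eval S t)
  | .tens s t => oprod (eval S s ∩ axisX) (eval S t ∩ axisY)

lemma eval_mem {k : ℕ} (S : Fin k → Set (ℝ × ℝ)) {F : Set (Set (ℝ × ℝ))} (hF : IsProjAlg F)
    (hS : ∀ i, S i ∈ F) (t : Term k) : eval S t ∈ F := by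
  induction t with
  | var i => exact hS i
  | neg t ih => exact hF.compl_mem _ ih
  | sup s t ihs iht => exact hF.union_mem _ ihs _ iht
  | p1 t ih => exact hF.proj1_mem _ ih
  | p2 t ih => exact hF.proj2_mem _ ih
  | tens s t ihs iht =>
    exact hF.oprod_mem _ (inter_mem hF ihs (axisX_mem hF ihs)) _
      (inter_mem hF iht (axisY_mem hF iht)) Set.inter_subset_right Set.inter_subset_right

lemma generated_eq_range {k : ℕ} (S : Fin k → Set (ℝ × ℝ)) :
    generated S = Set.range (eval S) := by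
  apply Set.Subset.antisymm
  · intro A hA
    refine hA _ ?_ (fun i => ⟨.var i, rfl⟩)
    refine ⟨?_, ?_, ?_, ?_, ?_⟩
    · rintro _ ⟨t, rfl⟩; exact ⟨.neg t, rfl⟩
    · rintro _ ⟨s, rfl⟩ _ ⟨t, rfl⟩; exact ⟨.sup s t, rfl⟩
    · rintro _ ⟨t, rfl⟩; exact ⟨.p1 t, rfl⟩
    · rintro _ ⟨t, rfl⟩; exact ⟨.p2 t, rfl⟩
    · rintro _ ⟨s, rfl⟩ _ ⟨t, rfl⟩ h1 h2
      refine ⟨.tens s t, ?_⟩
      simp only [eval, Set.inter_eq_left.2 h1, Set.inter_eq_left.2 h2]
  · rintro _ ⟨t, rfl⟩ F hF hS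
    exact eval_mem S hF hS t

lemma generated_countable {k : ℕ} (S : Fin k → Set (ℝ × ℝ)) : (generated S).Countable := by
  rw [generated_eq_range]; exact Set.countable_range _

/-- The equational theory of a generating tuple. -/
def theory {k : ℕ} (S : Fin k → Set (ℝ × ℝ)) : Set (Term k × Term k) :=
  {p | eval S p.1 = eval S p.2}

lemma isomorphic_of_theory_eq {k : ℕ} (hk : 0 < k) {S S' : Fin k → Set (ℝ × ℝ)}
    (h : theory S = theory S') : Isomorphic (generated S) (generated S') := by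
  classical
  have hiff : ∀ s t, eval S s = eval S t ↔ eval S' s = eval S' t := by
    intro s t
    have : (s, t) ∈ theory S ↔ (s, t) ∈ theory S' := by rw [h]
    exact this
  let φ : Set (ℝ × ℝ) → Set (ℝ × ℝ) := fun A =>
    if hA : ∃ t, eval S t = A then eval S' hA.choose else A
  have hφ : ∀ t, φ (eval S t) = eval S' t := by
    intro t
    have hA : ∃ s, eval S s = eval S t := ⟨t, rfl⟩
    have : φ (eval S t) = eval S' hA.choose := dif_pos hA
    rw [this]
    exact (hiff _ _).1 hA.choose_spec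
  rw [generated_eq_range, generated_eq_range]
  let v : Term k := .var ⟨0, hk⟩
  let tX : Term k := .p1 (.sup v (.neg v))
  let tY : Term k := .p2 (.sup v (.neg v))
  have hX : ∀ U : Fin k → Set (ℝ × ℝ), eval U tX = axisX := by
    intro U; simp only [tX, eval, Set.union_compl_self, proj1_univ]
  have hY : ∀ U : Fin k → Set (ℝ × ℝ), eval U tY = axisY := by
    intro U; simp only [tY, eval, Set.union_compl_self, proj2_univ]
  have hsubX : ∀ s, eval S s ⊆ axisX → eval S' s ⊆ axisX := by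
    intro s hs
    have h1 : eval S (.sup s tX) = eval S tX := by
      simp only [eval]; rw [hX, Set.union_eq_right.2 hs]
    have h2 := (hiff _ _).1 h1
    simp only [eval] at h2
    rw [hX] at h2
    exact Set.union_eq_right.1 h2
  have hsubY : ∀ s, eval S s ⊆ axisY → eval S' s ⊆ axisY := by
    intro s hs
    have h1 : eval S (.sup s tY) = eval S tY := by
      simp only [eval]; rw [hY, Set.union_eq_right.2 hs]
    have h2 := (hiff _ _).1 h1
    simp only [eval] at h2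
    rw [hY] at h2
    exact Set.union_eq_right.1 h2
  refine ⟨φ, ⟨?_, ?_, ?_⟩, ?_, ?_, ?_, ?_, ?_⟩
  · rintro _ ⟨t, rfl⟩; rw [hφ]; exact ⟨t, rfl⟩
  · rintro _ ⟨s, rfl⟩ _ ⟨t, rfl⟩ hst
    rw [hφ, hφ] at hst
    exact (hiff _ _).2 hst
  · rintro _ ⟨t, rfl⟩; exact ⟨eval S t, ⟨t, rfl⟩, hφ t⟩
  · rintro _ ⟨t, rfl⟩
    have : (eval S t)ᶜ = eval S (.neg t) := rfl
    rw [this, hφ, hφ]; rfl
  · rintro _ ⟨s, rfl⟩ _ ⟨t, rfl⟩
    have : eval S s ∪ eval S t = eval S (.sup s t) := rfl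
    rw [this, hφ, hφ, hφ]; rfl
  · rintro _ ⟨t, rfl⟩
    have : proj1 (eval S t) = eval S (.p1 t) := rfl
    rw [this, hφ, hφ]; rfl
  · rintro _ ⟨t, rfl⟩
    have : proj2 (eval S t) = eval S (.p2 t) := rfl
    rw [this, hφ, hφ]; rfl
  · rintro _ ⟨s, rfl⟩ _ ⟨t, rfl⟩ h1 h2
    have e : oprod (eval S s) (eval S t) = eval S (.tens s t) := by
      simp only [eval, Set.inter_eq_left.2 h1, Set.inter_eq_left.2 h2]
    rw [e, hφ, hφ, hφ]
    simp only [eval, Set.inter_eq_left.2 (hsubX s h1), Set.inter_eq_left.2 (hsubY t h2)]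

/-! ### The coding -/

/-- The chain of points extracted from a plane set `S`, starting at the origin. -/
def chain (S : Set (ℝ × ℝ)) : ℕ → Set (ℝ × ℝ) × Set (ℝ × ℝ)
  | 0 => (axisX ∩ axisY, axisX ∩ axisY)
  | n + 1 =>
    let b := proj2 ((S \ axisX) ∩ oprod (chain S n).1 axisY) \ (chain S n).2
    (proj1 ((S \ axisX) ∩ oprod axisX b) \ (chain S n).1, b)

/-- The set of natural numbers read off from `S`. -/
def decode (S : Set (ℝ × ℝ)) : Set ℕ := {n | (chain S n).1 ∩ S ≠ ∅}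

/-- The plane set coding `A ⊆ ℕ`. -/
def code (A : Set ℕ) : Set (ℝ × ℝ) :=
  {p | ∃ n : ℕ, p = ((n : ℝ), (n : ℝ) + 1) ∨ p = ((n : ℝ) + 1, (n : ℝ) + 1)} ∪
    {p | ∃ n ∈ A, p = ((n : ℝ), 0)}

lemma chain_subset (S : Set (ℝ × ℝ)) (n : ℕ) :
    (chain S n).1 ⊆ axisX ∧ (chain S n).2 ⊆ axisY := by
  cases n with
  | zero => exact ⟨Set.inter_subset_left, Set.inter_subset_right⟩
  | succ n =>
    constructor
    · rintro p ⟨⟨h, _⟩, _⟩; exact h
    · rintro p ⟨⟨h, _⟩, _⟩; exact h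

lemma chain_mem {F : Set (Set (ℝ × ℝ))} (hF : IsProjAlg F) {S : Set (ℝ × ℝ)} (hS : S ∈ F)
    (n : ℕ) : (chain S n).1 ∈ F ∧ (chain S n).2 ∈ F := by
  have hX := axisX_mem hF hS
  have hY := axisY_mem hF hS
  induction n with
  | zero => exact ⟨inter_mem hF hX hY, inter_mem hF hX hY⟩
  | succ n ih =>
    have hb : proj2 ((S \ axisX) ∩ oprod (chain S n).1 axisY) \ (chain S n).2 ∈ F :=
      diff_mem hF (hF.proj2_mem _ (inter_mem hF (diff_mem hF hS hX)
        (hF.oprod_mem _ ih.1 _ hY (chain_subset S n).1 Set.Subset.rfl))) ih.2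
    refine ⟨?_, hb⟩
    exact diff_mem hF (hF.proj1_mem _ (inter_mem hF (diff_mem hF hS hX)
        (hF.oprod_mem _ hX _ hb Set.Subset.rfl (chain_subset S (n+1)).2))) ih.1

lemma iso_chain {F G : Set (Set (ℝ × ℝ))} {φ : Set (ℝ × ℝ) → Set (ℝ × ℝ)}
    (hF : IsProjAlg F) (h : IsIso F G φ) {S : Set (ℝ × ℝ)} (hS : S ∈ F) (n : ℕ) :
    φ (chain S n).1 = (chain (φ S) n).1 ∧ φ (chain S n).2 = (chain (φ S) n).2 := by
  have hX := axisX_mem hF hS
  have hY := axisY_mem hF hS
  have eX := iso_axisX hF h hS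
  have eY := iso_axisY hF h hS
  induction n with
  | zero =>
    constructor <;>
    · simp only [chain]; rw [iso_inter hF h hX hY, eX, eY]
  | succ n ih =>
    obtain ⟨m1, m2⟩ := chain_mem hF hS n
    obtain ⟨m1', m2'⟩ := chain_mem hF hS (n+1)
    have o1 := hF.oprod_mem _ m1 _ hY (chain_subset S n).1 Set.Subset.rfl
    have hd := diff_mem hF hS hX
    have eb : φ (chain S (n+1)).2 = (chain (φ S) (n+1)).2 := by
      simp only [chain]
      rw [iso_diff hF h (hF.proj2_mem _ (inter_mem hF hd o1)) m2,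
        h.proj2 _ (inter_mem hF hd o1), iso_inter hF h hd o1, iso_diff hF h hS hX,
        h.oprod _ m1 _ hY (chain_subset S n).1 Set.Subset.rfl, eX, eY, ih.1, ih.2]
    refine ⟨?_, eb⟩
    have o2 := hF.oprod_mem _ hX _ m2' Set.Subset.rfl (chain_subset S (n+1)).2
    have e1 : ∀ U : Set (ℝ × ℝ), (chain U (n+1)).1 =
        proj1 ((U \ axisX) ∩ oprod axisX (chain U (n+1)).2) \ (chain U n).1 := fun U => rfl
    rw [e1 S, e1 (φ S), iso_diff hF h (hF.proj1_mem _ (inter_mem hF hd o2)) m1,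
      h.proj1 _ (inter_mem hF hd o2), iso_inter hF h hd o2, iso_diff hF h hS hX,
      h.oprod _ hX _ m2' Set.Subset.rfl (chain_subset S (n+1)).2, eX, eb, ih.1]

lemma iso_decode {F G : Set (Set (ℝ × ℝ))} {φ : Set (ℝ × ℝ) → Set (ℝ × ℝ)}
    (hF : IsProjAlg F) (h : IsIso F G φ) {S : Set (ℝ × ℝ)} (hS : S ∈ F) :
    decode (φ S) = decode S := by
  ext n
  simp only [decode, Set.mem_ofPred_eq]
  obtain ⟨m1, _⟩ := chain_mem hF hS n
  rw [← (iso_chain hF h hS n).1, ← iso_inter hF h m1 hS]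
  constructor
  · intro hne he; apply hne; rw [he]; exact iso_empty hF h hS
  · intro hne he; apply hne
    exact h.bij.injOn (inter_mem hF m1 hS) (empty_mem hF hS) (by rw [he, iso_empty hF h hS])

lemma chain_code (A : Set ℕ) (n : ℕ) :
    (chain (code A) n).1 = {((n : ℝ), (0 : ℝ))} ∧ (chain (code A) n).2 = {((0 : ℝ), (n : ℝ))} := by
  have hT : ∀ x y : ℝ, (x, y) ∈ code A \ axisX ↔
      ∃ m : ℕ, (x = m ∨ x = m + 1) ∧ y = m + 1 := by
    intro x y
    constructor
    · rintro ⟨h, h0⟩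
      simp only [code, Set.mem_union, Set.mem_ofPred_eq, Prod.mk.injEq] at h
      rcases h with ⟨m, h | h⟩ | ⟨m, _, h⟩
      · exact ⟨m, Or.inl h.1, h.2⟩
      · exact ⟨m, Or.inr h.1, h.2⟩
      · exact absurd h.2 h0
    · rintro ⟨m, h, hy⟩
      refine ⟨Or.inl ?_, ?_⟩
      · refine ⟨m, ?_⟩
        rcases h with h | h
        · left; rw [h, hy]
        · right; rw [h, hy]
      · intro h0
        have h0' : y = 0 := h0
        have : (m : ℝ) + 1 > 0 := by positivity
        linarith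
  induction n with
  | zero =>
    constructor <;>
    · ext ⟨x, y⟩
      simp [chain, axisX, axisY, and_comm]
  | succ n ih =>
    obtain ⟨ih1, ih2⟩ := ih
    have eb : (chain (code A) (n+1)).2 = {((0 : ℝ), ((n+1 : ℕ) : ℝ))} := by
      ext ⟨x, y⟩
      simp only [chain, Set.mem_sdiff, Set.mem_singleton_iff, Prod.mk.injEq]
      rw [ih1, ih2]
      simp only [proj2, oprod, axisY, Set.mem_ofPred_eq, Set.mem_inter_iff, hT,
        Set.mem_singleton_iff, Prod.mk.injEq]
      constructor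
      · rintro ⟨⟨hx, x', ⟨m, hm, hy⟩, ⟨hx', _⟩, _⟩, hne⟩
        refine ⟨hx, ?_⟩
        push_cast
        rcases hm with hm | hm
        · rw [hy]; rw [← hm, hx']
        · exfalso
          apply hne
          refine ⟨hx, ?_⟩
          rw [hy, ← hm, hx']
      · rintro ⟨hx, hy⟩
        push_cast at hy
        refine ⟨⟨hx, (n : ℝ), ⟨n, Or.inl rfl, hy⟩, ⟨rfl, trivial⟩, trivial⟩, ?_⟩
        rintro ⟨_, h⟩
        rw [hy] at h
        linarith
    refine ⟨?_, eb⟩
    have e1 : (chain (code A) (n+1)).1 =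
        proj1 ((code A \ axisX) ∩ oprod axisX (chain (code A) (n+1)).2) \ (chain (code A) n).1 :=
      rfl
    rw [e1, eb, ih1]
    ext ⟨x, y⟩
    simp only [proj1, oprod, axisX, Set.mem_ofPred_eq, Set.mem_inter_iff, Set.mem_sdiff,
      Set.mem_singleton_iff, Prod.mk.injEq]
    have hT' : ∀ x y : ℝ, ((x, y) ∈ code A ∧ ¬ (x, y) ∈ {p : ℝ × ℝ | p.2 = 0}) ↔
      ∃ m : ℕ, (x = m ∨ x = m + 1) ∧ y = m + 1 := hT
    constructor
    · rintro ⟨⟨hy, y', hc, _, _, hy'⟩, hne⟩
      obtain ⟨m, hm, hmy⟩ := (hT' x y').1 ⟨hc.1, hc.2⟩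
      refine ⟨?_, hy⟩
      have hmn : (m : ℝ) = n := by
        have : (m : ℝ) + 1 = (n + 1 : ℕ) := by rw [← hmy, hy']
        push_cast at this; linarith
      rcases hm with hm | hm
      · exfalso; apply hne; exact ⟨by rw [hm, hmn], hy⟩
      · rw [hm, hmn]; push_cast; ring
    · rintro ⟨hx, hy⟩
      push_cast at hx
      refine ⟨⟨hy, (n : ℝ) + 1, ?_, ?_⟩, ?_⟩
      · exact (hT' x _).2 ⟨n, Or.inr hx, rfl⟩
      · push_cast; exact ⟨trivial, trivial, rfl⟩
      · rintro ⟨h, _⟩; rw [hx] at h; linarith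

lemma decode_code (A : Set ℕ) : decode (code A) = A := by
  ext n
  simp only [decode, Set.mem_ofPred_eq, (chain_code A n).1]
  constructor
  · intro h
    obtain ⟨p, hp, hpc⟩ := Set.nonempty_iff_ne_empty.2 h
    rw [Set.mem_singleton_iff] at hp
    subst hp
    rcases hpc with ⟨m, h1 | h1⟩ | ⟨m, hm, h1⟩
    · simp only [Prod.mk.injEq] at h1
      have : (m : ℝ) + 1 > 0 := by positivity
      linarith [h1.2]
    · simp only [Prod.mk.injEq] at h1
      have : (m : ℝ) + 1 > 0 := by positivity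
      linarith [h1.2]
    · simp only [Prod.mk.injEq, Nat.cast_inj, and_true] at h1
      rw [h1]; exact hm
  · intro h
    apply Set.nonempty_iff_ne_empty.1
    exact ⟨((n : ℝ), 0), rfl, Or.inr ⟨n, h, rfl⟩⟩

/-! ### The count -/

/-- The algebra generated by `k` copies of `code A`. -/
def algOf (k : ℕ) (A : Set ℕ) : GenAlg k :=
  ⟨generated (fun _ : Fin k => code A), fun _ => code A, rfl⟩

lemma fiber_countable (k : ℕ) (hk : 0 < k) (q : Quotient (isoSetoid k)) :
    {A : Set ℕ | Quotient.mk (isoSetoid k) (algOf k A) = q}.Countable := by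
  obtain ⟨G, rfl⟩ := Quotient.exists_rep q
  have hG : G.1.Countable := by
    obtain ⟨S, hS⟩ := G.2
    rw [hS]; exact generated_countable S
  refine (hG.image decode).mono ?_
  intro A hA
  have hA' : Isomorphic (algOf k A).1 G.1 := Quotient.exact hA
  obtain ⟨φ, hφ⟩ := hA'
  have hmem : code A ∈ (algOf k A).1 := mem_generated (fun _ : Fin k => code A) ⟨0, hk⟩
  refine ⟨φ (code A), hφ.bij.mapsTo hmem, ?_⟩
  rw [iso_decode (generated_isProjAlg _) hφ hmem, decode_code]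

lemma lower (k : ℕ) (hk : 0 < k) : 𝔠 ≤ #(Quotient (isoSetoid k)) := by
  by_contra hlt
  rw [not_le] at hlt
  let g : Set ℕ → Quotient (isoSetoid k) := fun A => Quotient.mk _ (algOf k A)
  have h1 : #(Set ℕ) = #(Σ q : Quotient (isoSetoid k), {A : Set ℕ // g A = q}) :=
    (Cardinal.mk_congr (Equiv.sigmaFiberEquiv g)).symm
  have h2 : #(Σ q : Quotient (isoSetoid k), {A : Set ℕ // g A = q}) ≤
      #(Quotient (isoSetoid k)) * ℵ₀ := by
    rw [Cardinal.mk_sigma]
    calc Cardinal.sum (fun q => #{A : Set ℕ // g A = q})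
        ≤ Cardinal.sum (fun _ : Quotient (isoSetoid k) => ℵ₀) := by
          apply Cardinal.sum_le_sum
          intro q
          have := fiber_countable k hk q
          exact Cardinal.mk_le_aleph0_iff.2 this.to_subtype
      _ = #(Quotient (isoSetoid k)) * ℵ₀ := by rw [Cardinal.sum_const']
  have h3 : #(Set ℕ) = 𝔠 := by rw [Cardinal.mk_set, Cardinal.mk_nat, Cardinal.two_power_aleph0]
  have h4 : #(Quotient (isoSetoid k)) * ℵ₀ < 𝔠 :=
    Cardinal.mul_lt_of_lt Cardinal.aleph0_le_continuum hlt Cardinal.aleph0_lt_continuum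
  rw [h3] at h1
  rw [← h1] at h2
  exact absurd h2 (not_le.2 h4)

lemma upper (k : ℕ) (hk : 0 < k) : #(Quotient (isoSetoid k)) ≤ 𝔠 := by
  classical
  let rep : GenAlg k → (Fin k → Set (ℝ × ℝ)) := fun F => F.2.choose
  have hrep : ∀ F : GenAlg k, F.1 = generated (rep F) := fun F => F.2.choose_spec
  let f : Quotient (isoSetoid k) → Set (Term k × Term k) := fun q => theory (rep q.out)
  have hf : Function.Injective f := by
    intro q q' h
    have h1 : Isomorphic q.out.1 q'.out.1 := by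
      rw [hrep, hrep]; exact isomorphic_of_theory_eq hk h
    rw [← Quotient.out_eq q, ← Quotient.out_eq q']
    exact Quotient.sound h1
  calc #(Quotient (isoSetoid k)) ≤ #(Set (Term k × Term k)) := Cardinal.mk_le_of_injective hf
    _ = 2 ^ #(Term k × Term k) := Cardinal.mk_set
    _ ≤ 2 ^ ℵ₀ := Cardinal.power_le_power_left two_ne_zero Cardinal.mk_le_aleph0
    _ = 𝔠 := Cardinal.two_power_aleph0

/-- **For every positive integer `k`, the number of isomorphism classes of projective algebras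
generated by `k` subsets of the plane is exactly the cardinality of the continuum.** -/
theorem result (k : ℕ) (hk : 0 < k) : #(Quotient (isoSetoid k)) = 𝔠 :=
  le_antisymm (upper k hk) (lower k hk)

end Pool.Agent.Results.MP_71be7b_lc.ContinuumManyClasses
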